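import Mathlib
import Pool.Agent.Helper92.PU.Leaves
import Pool.Agent.Helper48.PU.Pat

/-!
# PT-0: purity of an exponent-one level for `K ∣ p ^ 2 * r`, `q = 2` (so `K` is odd)

Orientation: `q = 2` does not divide `K`; `p`, `r` are odd.  Never `Eq'`, no two points of one colour in one
block which differ only in the second coordinate.
-/

set_option autoImplicit false

namespace Pool.Agent.Helper48.PT

open Pool.Agent.Helper92.SS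
open Pool.Agent.Helper92.PU
open Pool.Agent.Helper48.PU

/-- The minimal situation modulo `(p ^ (n + 1), 2 ^ (m + 1))`, `K ∣ p ^ 2 * r`. -/
structure Mt (p n q m : ℕ) {r : ℕ} (ca cl : ℤ × ℤ → ZMod r) (A L : Finset (ℤ × ℤ)) : Prop where
  hp : p.Prime
  hq : q.Prime
  hr : r.Prime
  r3 : 3 ≤ r
  pq : p ≠ q
  rp : r ≠ p
  rq : r ≠ q
  q2 : q = 2
  cp : CP p (n + 1) q (m + 1) ca cl A L
  ne : A.Nonempty
  rK : r ∣ A.card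
  Kd : A.card ∣ p ^ 2 * r
  oA1 : ¬ one1 p A
  oA2 : ¬ one2 q A
  oL1 : ¬ one1 p L
  oL2 : ¬ one2 q L
  pA1 : ¬ CPer p n q (m + 1) ca A
  pA2 : ¬ CPer q m p (n + 1) (cs ca) (sw A)
  pL1 : ¬ CPer p n q (m + 1) cl L
  pL2 : ¬ CPer q m p (n + 1) (cs cl) (sw L)
  fA : ∀ x : ZMod r, (kl ca A x).Nonempty
  fL : ∀ y : ZMod r, (kl cl L y).Nonempty

section mt

variable {p n q m r : ℕ} {ca cl : ℤ × ℤ → ZMod r} {A L : Finset (ℤ × ℤ)}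

theorem Mt.symm (h : Mt p n q m ca cl A L) : Mt p n q m cl ca L A where
  hp := h.hp
  hq := h.hq
  hr := h.hr
  r3 := h.r3
  pq := h.pq
  rp := h.rp
  rq := h.rq
  q2 := h.q2
  cp := h.cp.symm
  ne := by
    rw [← Finset.card_pos, ← h.cp.card]
    exact Finset.card_pos.2 h.ne
  rK := by rw [← h.cp.card]; exact h.rK
  Kd := by rw [← h.cp.card]; exact h.Kd
  oA1 := h.oL1
  oA2 := h.oL2
  oL1 := h.oA1
  oL2 := h.oA2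
  pA1 := h.pL1
  pA2 := h.pL2
  pL1 := h.pA1
  pL2 := h.pA2
  fA := h.fL
  fL := h.fA

theorem Mt.p3 (h : Mt p n q m ca cl A L) : 3 ≤ p := by
  have h1 := h.hp.two_le
  have h2 := h.pq
  have h3 := h.q2
  omega

/-- `q` does not divide the number of points. -/
theorem Mt.qK (h : Mt p n q m ca cl A L) : ¬ q ∣ A.card := by
  intro h1
  rcases (Nat.Prime.dvd_mul h.hq).1 (h1.trans h.Kd) with h2 | h2
  · exact h.pq ((Nat.prime_dvd_prime_iff_eq h.hq h.hp).1 (h.hq.dvd_of_dvd_pow h2)).symm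
  · exact h.rq ((Nat.prime_dvd_prime_iff_eq h.hq h.hr).1 h2).symm

theorem Mt.odd (h : Mt p n q m ca cl A L) : ¬ 2 ∣ A.card := by
  have := h.qK
  rwa [h.q2] at this

theorem Mt.nEqL (h : Mt p n q m ca cl A L) : ¬ Eq' q L := fun e => h.qK (by
  rw [h.cp.card, ← e 0]
  exact dvd_mul_right _ _)

theorem Mt.nEqA (h : Mt p n q m ca cl A L) : ¬ Eq' q A := fun e => h.qK (by
  rw [← e 0]
  exact dvd_mul_right _ _)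

/-- No two points of `A` of one colour differ in the top digit of the second coordinate only. -/
theorem Mt.nq (h : Mt p n q m ca cl A L) {a b : ℤ × ℤ} (ha : a ∈ A) (hb : b ∈ A)
    (hc : ca a = ca b) (h1 : (p : ℤ) ^ (n + 1) ∣ a.1 - b.1)
    (h2 : (q : ℤ) ^ m ∣ a.2 - b.2) : (q : ℤ) ^ (m + 1) ∣ a.2 - b.2 := by
  by_contra h3
  exact h.nEqL fun x => pat_q h.hp h.hq h.pq h.cp ha hb hc h1 h2 h3 x

end mt

/-- Rainbow rows for any number of points prime to `p`, `q` odd: every block of `A` is one full `q`-line with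
pairwise different colours, and `L` is a star with centre `(d0, e0)`. -/
structure RowT (p n q m : ℕ) {r : ℕ} (ca cl : ℤ × ℤ → ZMod r) (A L : Finset (ℤ × ℤ))
    (d0 e0 : ℤ) (c0 : ZMod r) (k b : ℕ) : Prop where
  hp : p.Prime
  hq : q.Prime
  hr : r.Prime
  r3 : 3 ≤ r
  q3 : 3 ≤ q
  pq : p ≠ q
  rp : r ≠ p
  rq : r ≠ q
  cp : CP p (n + 1) q (m + 1) ca cl A L
  ne : A.Nonempty
  pK : ¬ p ∣ A.card
  line : ∀ a ∈ A, ∀ s : ℤ, ∃ b ∈ A, (p : ℤ) ^ (n + 1) ∣ b.1 - a.1 ∧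
    (q : ℤ) ^ (m + 1) ∣ b.2 - (a.2 + s * (q : ℤ) ^ m)
  rain : ∀ a ∈ A, ∀ b ∈ A, a ≠ b → (p : ℤ) ^ n ∣ a.1 - b.1 → (q : ℤ) ^ m ∣ a.2 - b.2 →
    (p : ℤ) ^ (n + 1) ∣ a.1 - b.1 ∧ ¬ (q : ℤ) ^ (m + 1) ∣ a.2 - b.2 ∧ ca a ≠ ca b
  cen : ∀ l ∈ L, cl l ≠ c0 → (p : ℤ) ∣ l.1 - d0 ∧ (q : ℤ) ∣ l.2 - e0
  star : ∀ l ∈ L, (p : ℤ) ∣ l.1 - d0 ∨ (q : ℤ) ∣ l.2 - e0
  kpos : 0 < k
  bpos : 0 < b
  cb : ∀ c : ZMod r, c ≠ c0 → (kl cl L c).card = b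
  ck : ∀ e : ℤ, ¬ (q : ℤ) ∣ e - e0 → c2 L q e = k
  eq : A.card = q * k + r * b

/-- The kernel relations of a family of rainbow rows (`M` rows). -/
structure RKT (p n q m r M k b : ℕ) (A0 Q C : Finset (ℤ × ℤ)) (R : ℤ × ℤ → ℤ × ℤ → Prop) :
    Prop where
  hp : p.Prime
  hq : q.Prime
  hr : r.Prime
  r3 : 3 ≤ r
  q3 : 3 ≤ q
  pq : p ≠ q
  rp : r ≠ p
  rq : r ≠ q
  cA : A0.card = M
  cQ : Q.card = k
  cC : C.card = b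
  Mpos : 0 < M
  kpos : 0 < k
  bpos : 0 < b
  eq : q * M = q * k + r * b
  pM : ¬ p ∣ q * M
  disj : Disjoint Q C
  eqv : Equivalence R
  lev : ∀ ρ ∈ A0, ∀ ρ' ∈ A0, R ρ ρ' → (q : ℤ) ^ (m + 1) ∣ ρ.2 - ρ'.2
  ortQ : ∀ l ∈ Q, ∀ l' ∈ Q, l ≠ l' → sm p (n + 1) q (m + 1) A0 (l - l') = 0
  ker : ∀ ρ ∈ A0, ∀ ρ' ∈ A0, ρ ≠ ρ' → R ρ ρ' →
    (q : ℂ) * sm p (n + 1) q (m + 1) Q (ρ - ρ') = -((r : ℂ) * sm p (n + 1) q (m + 1) C (ρ - ρ'))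
  ker0 : ∀ ρ ∈ A0, ∀ ρ' ∈ A0, ¬ R ρ ρ' → sm p (n + 1) q (m + 1) Q (ρ - ρ') = 0

/-- T2: no uniform marginals, there is a `(0, 0)`-pair of different colours. -/
def LeafTZD : Prop := ∀ (p n q m r : ℕ) (ca cl : ℤ × ℤ → ZMod r) (A L : Finset (ℤ × ℤ)),
  Mt p n q m ca cl A L → ¬ Ep p L →
  (∃ l ∈ L, ∃ l' ∈ L, ¬ (p : ℤ) ∣ l.1 - l'.1 ∧ ¬ (q : ℤ) ∣ l.2 - l'.2 ∧ cl l ≠ cl l') →
  P1 p (n + 1) q (m + 1) ca cl A L

/-- T4: no uniform marginals, all `(0, 0)`-pairs have equal colours. -/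
def LeafTZS : Prop := ∀ (p n q m r : ℕ) (ca cl : ℤ × ℤ → ZMod r) (A L : Finset (ℤ × ℤ)),
  Mt p n q m ca cl A L → ¬ Ep p L →
  (∀ l ∈ L, ∀ l' ∈ L, ¬ (p : ℤ) ∣ l.1 - l'.1 → ¬ (q : ℤ) ∣ l.2 - l'.2 → cl l = cl l') →
  ∃ (d0 e0 : ℤ) (c0 : ZMod r) (k b : ℕ),
    RowT q m p n (cs ca) (cs cl) (sw A) (sw L) d0 e0 c0 k b

/-- The kernel relations of rainbow rows. -/
def LeafTR1 : Prop := ∀ (p n q m r : ℕ) (ca cl : ℤ × ℤ → ZMod r) (A L : Finset (ℤ × ℤ))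
  (d0 e0 : ℤ) (c0 : ZMod r) (k b : ℕ), RowT p n q m ca cl A L d0 e0 c0 k b →
  ∃ (M : ℕ) (A0 Q C : Finset (ℤ × ℤ)) (R : ℤ × ℤ → ℤ × ℤ → Prop),
    RKT p n q m r M k b A0 Q C R

/-- The contradiction from the kernel relations. -/
def LeafTR2 : Prop := ∀ (p n q m r M k b : ℕ) (A0 Q C : Finset (ℤ × ℤ))
  (R : ℤ × ℤ → ℤ × ℤ → Prop), RKT p n q m r M k b A0 Q C R → False

/-- T3: uniform `p`-marginals of `L`, all `(0, 0)`-pairs of `L` have equal colours. -/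
def LeafTS : Prop := ∀ (p n q m r : ℕ) (ca cl : ℤ × ℤ → ZMod r) (A L : Finset (ℤ × ℤ)),
  Mt p n q m ca cl A L → Ep p L →
  (∀ l ∈ L, ∀ l' ∈ L, ¬ (p : ℤ) ∣ l.1 - l'.1 → ¬ (q : ℤ) ∣ l.2 - l'.2 → cl l = cl l') → False

/-- T1: both kinds of `(0, 0)`-pairs. -/
def LeafTB : Prop := ∀ (p n q m r : ℕ) (ca cl : ℤ × ℤ → ZMod r) (A L : Finset (ℤ × ℤ)),
  Mt p n q m ca cl A L →
  (∃ l ∈ L, ∃ l' ∈ L, ¬ (p : ℤ) ∣ l.1 - l'.1 ∧ ¬ (q : ℤ) ∣ l.2 - l'.2 ∧ cl l = cl l') →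
  (∃ l ∈ L, ∃ l' ∈ L, ¬ (p : ℤ) ∣ l.1 - l'.1 ∧ ¬ (q : ℤ) ∣ l.2 - l'.2 ∧ cl l ≠ cl l') → False

/-- T5: uniform `p`-marginals of both sets, state D of both sets. -/
def LeafTX : Prop := ∀ (p n q m r : ℕ) (ca cl : ℤ × ℤ → ZMod r) (A L : Finset (ℤ × ℤ)),
  Mt p n q m ca cl A L → Ep p A → Ep p L →
  (∀ l ∈ L, ∀ l' ∈ L, cl l = cl l' → (p : ℤ) ∣ l.1 - l'.1 ∨ (q : ℤ) ∣ l.2 - l'.2) →
  (∀ a ∈ A, ∀ a' ∈ A, ca a = ca a' → (p : ℤ) ∣ a.1 - a'.1 ∨ (q : ℤ) ∣ a.2 - a'.2) → False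

/-- BOX: the numbers.  All colours of `L` have the same size, `n_c - n_c'` is additive, uniform `p`-marginals,
state D, an odd number of points: all colours are in one class modulo `2` and are uniform modulo `p`. -/
def LeafTN : Prop := ∀ (p r : ℕ) (cl : ℤ × ℤ → ZMod r) (L : Finset (ℤ × ℤ)),
  p.Prime → 3 ≤ p → r.Prime → 3 ≤ r → ¬ 2 ∣ L.card → ¬ one1 p L → ¬ one2 2 L → Ep p L →
  (∀ c : ZMod r, r * (kl cl L c).card = L.card) →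
  (∀ (c c' : ZMod r) (x x' y y' : ℤ),
    ((cc (kl cl L c) p 2 x y : ℤ) - cc (kl cl L c') p 2 x y) +
      ((cc (kl cl L c) p 2 x' y' : ℤ) - cc (kl cl L c') p 2 x' y') =
    ((cc (kl cl L c) p 2 x' y : ℤ) - cc (kl cl L c') p 2 x' y) +
      ((cc (kl cl L c) p 2 x y' : ℤ) - cc (kl cl L c') p 2 x y')) →
  (∀ l ∈ L, ∀ l' ∈ L, cl l = cl l' → (p : ℤ) ∣ l.1 - l'.1 ∨ (2 : ℤ) ∣ l.2 - l'.2) →
  (∀ l ∈ L, ∀ l' ∈ L, cl l = cl l' → (2 : ℤ) ∣ l.2 - l'.2) ∧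
    ∀ (c : ZMod r) (x : ℤ), p * c1 (kl cl L c) p x = (kl cl L c).card

end Pool.Agent.Helper48.PT
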