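import Mathlib
import Pool.Agent.Helper48.PT.Defs
import Pool.Agent.Helper48.PU.Bas

/-!
# PT-1: purity for `K ∣ p ^ 2 * r`, `q = 2`, assembly
-/

set_option autoImplicit false

namespace Pool.Agent.Helper48.PT

open Pool.Agent.Helper92.SS
open Pool.Agent.Helper92.PU
open Pool.Agent.Helper48.PU

theorem mt_neg {p n q m r : ℕ} (hZD : LeafTZD) (hZS : LeafTZS) (hR1 : LeafTR1) (hR2 : LeafTR2)
    {ca cl : ℤ × ℤ → ZMod r} {A L : Finset (ℤ × ℤ)} (h : Mt p n q m ca cl A L)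
    (hE : ¬ Ep p L) : P1 p (n + 1) q (m + 1) ca cl A L := by
  by_cases hD : ∃ l ∈ L, ∃ l' ∈ L, ¬ (p : ℤ) ∣ l.1 - l'.1 ∧ ¬ (q : ℤ) ∣ l.2 - l'.2 ∧ cl l ≠ cl l'
  · exact hZD _ _ _ _ _ _ _ _ _ h hE hD
  · push Not at hD
    obtain ⟨d0, e0, c0, k, b, hR⟩ := hZS _ _ _ _ _ _ _ _ _ h hE hD
    obtain ⟨M, A0, Q, C, R, hK⟩ := hR1 _ _ _ _ _ _ _ _ _ _ _ _ _ _ hR
    exact (hR2 _ _ _ _ _ _ _ _ _ _ _ _ hK).elim

/-- The irreducible case. -/
theorem main_mt {p n q m r : ℕ} (hZD : LeafTZD) (hZS : LeafTZS) (hR1 : LeafTR1) (hR2 : LeafTR2)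
    (hS : LeafTS) (hB : LeafTB) (hX : LeafTX)
    {ca cl : ℤ × ℤ → ZMod r} {A L : Finset (ℤ × ℤ)} (h : Mt p n q m ca cl A L) :
    P0 p (n + 1) q (m + 1) ca cl A L ∨ P1 p (n + 1) q (m + 1) ca cl A L := by
  by_cases hL : Ep p L
  swap
  · exact Or.inr (mt_neg hZD hZS hR1 hR2 h hL)
  by_cases hA : Ep p A
  swap
  · exact dic_symm h.hr.pos h.cp.symm (Or.inr (mt_neg hZD hZS hR1 hR2 h.symm hA))
  exfalso
  -- state D of `L` and of `A`
  have key : ∀ {ca cl : ℤ × ℤ → ZMod r} {A L : Finset (ℤ × ℤ)}, Mt p n q m ca cl A L → Ep p L →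
      ∀ l ∈ L, ∀ l' ∈ L, cl l = cl l' → (p : ℤ) ∣ l.1 - l'.1 ∨ (q : ℤ) ∣ l.2 - l'.2 := by
    intro ca cl A L h hL l hl l' hl' hc
    by_contra hcon
    push Not at hcon
    by_cases hD : ∃ l ∈ L, ∃ l' ∈ L, ¬ (p : ℤ) ∣ l.1 - l'.1 ∧ ¬ (q : ℤ) ∣ l.2 - l'.2 ∧
        cl l ≠ cl l'
    · exact hB _ _ _ _ _ _ _ _ _ h ⟨l, hl, l', hl', hcon.1, hcon.2, hc⟩ hD
    · push Not at hD
      exact hS _ _ _ _ _ _ _ _ _ h hL hD
  exact hX _ _ _ _ _ _ _ _ _ h hA hL (key h hL) (key h.symm hA)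

/-- The general statement. -/
theorem main_dic (hZD : LeafTZD) (hZS : LeafTZS) (hR1 : LeafTR1) (hR2 : LeafTR2)
    (hS : LeafTS) (hB : LeafTB) (hX : LeafTX)
    {p r : ℕ} (hp : p.Prime) (hp2 : p ≠ 2) (hr : r.Prime) (hr3 : 3 ≤ r)
    (hrp : r ≠ p) (N : ℕ) : ∀ (n m K : ℕ), n + m ≤ N → r ∣ K → K ∣ p ^ 2 * r →
      Dic p n 2 m r K := by
  have hq : (2 : ℕ).Prime := Nat.prime_two
  have hr2 : r ≠ 2 := by omega
  have hpos : 0 < p ^ 2 * r := Nat.mul_pos (pow_pos hp.pos 2) hr.pos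
  induction N with
  | zero =>
    intro n m K hN hrK hKd
    obtain rfl : n = 0 := by omega
    exact dic_zero hp hq hp2 hr hr2
  | succ N ih =>
    intro n m K hN hrK hKd
    have hK : 0 < K := Nat.pos_of_dvd_of_pos hKd hpos
    rcases n with _ | n
    · exact dic_zero hp hq hp2 hr hr2
    rcases m with _ | m
    · exact dic_zero' hp hq hp2 hr hrp
    have hdiv : ∀ s K0 : ℕ, s.Prime → r ≠ s → s * K0 = K → r ∣ K0 ∧ K0 ∣ p ^ 2 * r := by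
      intro s K0 hs hrs e
      refine ⟨?_, ?_⟩
      · rw [← e] at hrK
        rcases (Nat.Prime.dvd_mul hr).1 hrK with h1 | h1
        · exact absurd ((Nat.prime_dvd_prime_iff_eq hr hs).1 h1) hrs
        · exact h1
      · refine Nat.dvd_trans ?_ hKd
        rw [← e]
        exact dvd_mul_left _ _
    refine dic_step hp hq hp2 hr hrp hr2 hK (ih _ _ _ (by omega) hrK hKd)
      (fun K0 e => ih _ _ _ (by omega) (hdiv p K0 hp hrp e).1 (hdiv p K0 hp hrp e).2)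
      (ih _ _ _ (by omega) hrK hKd)
      (fun K0 e => ih _ _ _ (by omega) (hdiv 2 K0 hq hr2 e).1 (hdiv 2 K0 hq hr2 e).2) ?_
    intro ca cl A L hAK hcp hI1 hI2
    have hne : A.Nonempty := by
      rw [← Finset.card_pos, hAK]
      exact hK
    by_cases hfL : ∀ y : ZMod r, (kl cl L y).Nonempty
    swap
    · left
      push Not at hfL
      obtain ⟨y0, hy0⟩ := hfL
      refine p0_symm hr.pos hcp.symm ?_
      intro a ha a' ha' hc y
      rw [hcp.a.2 a ha a' ha' hc y y0, hy0]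
      rfl
    by_cases hfA : ∀ x : ZMod r, (kl ca A x).Nonempty
    swap
    · left
      push Not at hfA
      obtain ⟨x0, hx0⟩ := hfA
      intro l hl l' hl' hc x
      rw [hcp.l.2 l hl l' hl' hc x x0, hx0]
      rfl
    exact main_mt hZD hZS hR1 hR2 hS hB hX (n := n) (m := m)
      { hp := hp, hq := hq, hr := hr, r3 := hr3, pq := hp2, rp := hrp, rq := hr2, q2 := rfl,
        cp := hcp, ne := hne, rK := hAK.symm ▸ hrK, Kd := hAK.symm ▸ hKd,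
        oA1 := hI1.1, oL1 := hI1.2.1, pA1 := hI1.2.2.1, pL1 := hI1.2.2.2,
        oA2 := fun e => hI2.1 (one1_sw.2 e), oL2 := fun e => hI2.2.1 (one1_sw.2 e),
        pA2 := hI2.2.2.1, pL2 := hI2.2.2.2, fA := hfA, fL := hfL }

/-- The common complement modulo `p ^ n * 2 ^ m * r` for `K ∣ p ^ 2 * r`, `r ∣ K`. -/
theorem uck_t (hZD : LeafTZD) (hZS : LeafTZS) (hR1 : LeafTR1) (hR2 : LeafTR2)
    (hS : LeafTS) (hB : LeafTB) (hX : LeafTX)
    {p r K : ℕ} (hp : p.Prime) (hp2 : p ≠ 2) (hr : r.Prime) (hr2 : r ≠ 2)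
    (hrp : r ≠ p) (hrK : r ∣ K) (hKd : K ∣ p ^ 2 * r) (n m : ℕ) :
    Pool.Agent.Helper35.LP.UCK (p ^ n * 2 ^ m * r) K := by
  have hr3 : 3 ≤ r := by
    have := hr.two_le
    omega
  exact uck_pqr hp Nat.prime_two hp2 hr hr3 hrp hr2
    (Nat.pos_of_dvd_of_pos hKd (Nat.mul_pos (pow_pos hp.pos 2) hr.pos))
    fun ca cl A L hcp hAK => main_dic hZD hZS hR1 hR2 hS hB hX hp hp2 hr hr3 hrp (n + m) n m K
      le_rfl hrK hKd ca cl A L hAK hcp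

end Pool.Agent.Helper48.PT
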